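import Pool.Agent.Helper24.EG.Goals

/-!
# Project EG (MP_98cfca_co, Q2), packet EG-CORE: the core argument for connected even graphs

Adapted from `core_final` of `Helper52/Final.lean`.
-/

set_option autoImplicit false

namespace Pool.Agent.Helper23.EG

open PowerSeries Finset Metric Pool.Agent.Helper52 Pool.Agent.Helper24.EG

theorem arithC (w e f a c k e1 p x y : ℝ) (q b : ℕ) :
    2 * (w * (e * (f * ((a * (p ^ 2) ^ b) ^ (q + 1)) ^ q) * ((c * p ^ 2) ^ (q + 1) *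
      (k * e1 * e1 * p ^ 2 * (x * y)))))
      = 2 * (w * (e * (f * (a ^ (q + 1)) ^ q) * (c ^ (q + 1) * (k * e1 * e1))))
        * p ^ (2 * b * (q + 1) * q + 2 * (q + 1) + 2) * (x * y) := by
  ring

/-- bound for the Euler derivatives of the part of the disconnected graphs -/
theorem theta_bound (hLC : G_LC) {f : PowerSeries ℂ} (hf : f ∈ Good) {K t₀ : ℝ} {p m i : ℕ}
    {z : ℂ} (hK1 : 1 ≤ K) (ht₀ : 0 < t₀) (hp5 : 5 ≤ p) (hpt : 2 / t₀ < p)
    (hK : ∀ z : ℂ, 1 ≤ p → ‖z‖ ≤ 1 / 2 → t₀ / 2 ≤ z.re →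
      ‖ev z f‖ ≤ K * p ^ 2 * ‖1 + z‖ ^ (p.choose 2) * Real.exp (-(‖z‖ ^ 2 * p / 5)))
    (hz : ‖z‖ ≤ 1 / 4) (hzt : t₀ ≤ z.re) (hi : i ≤ m) :
    ‖ev z ((theta ℂ)^[i] f)‖ ≤ ((m : ℝ) * (p : ℝ) ^ 2) ^ m *
      (K * Real.exp 1 * Real.exp 1 * (p : ℝ) ^ 2 *
        (‖1 + z‖ ^ (p.choose 2) * Real.exp (-(‖z‖ ^ 2 * p / 5)))) := by
  have hpR : (5 : ℝ) ≤ p := by exact_mod_cast hp5
  obtain ⟨D, hD⟩ : ∃ D : ℝ, D = (p : ℝ) ^ 2 := ⟨_, rfl⟩
  have hD25 : 25 ≤ D := by rw [hD]; nlinarith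
  have hDp : 0 < D := by linarith
  have h1D : 1 / D ≤ 1 / 25 := one_div_le_one_div_of_le (by norm_num) hD25
  have hNle : ((p.choose 2 : ℕ) : ℝ) ≤ D := by
    rw [hD]
    have h1 : p.choose 2 ≤ p ^ 2 := by
      rw [Nat.choose_two_right]
      refine (Nat.div_le_self _ _).trans ?_
      rw [pow_two]
      exact Nat.mul_le_mul_left _ (Nat.sub_le _ _)
    exact_mod_cast h1
  have h1z : 1 ≤ ‖1 + z‖ := by
    have h := Complex.re_le_norm (1 + z)
    rw [Complex.add_re, Complex.one_re] at h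
    linarith
  have hδ : 0 < 1 / D := by positivity
  have hDt : 1 / D ≤ t₀ / 2 := by
    rw [div_le_iff₀ hDp]
    rw [div_lt_iff₀ ht₀] at hpt
    rw [hD]
    nlinarith
  obtain ⟨B, hB⟩ : ∃ B : ℝ, B = K * Real.exp 1 * Real.exp 1 * D *
    (‖1 + z‖ ^ (p.choose 2) * Real.exp (-(‖z‖ ^ 2 * p / 5))) := ⟨_, rfl⟩
  have hB0 : 0 ≤ B := by rw [hB]; positivity
  have hloc : ∀ w : ℂ, ‖w - z‖ ≤ 1 / D → ‖ev w f‖ ≤ B := by
    intro w hw
    have hwn : ‖w‖ ≤ ‖z‖ + 1 / D := by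
      calc ‖w‖ = ‖z + (w - z)‖ := by congr 1; ring
        _ ≤ ‖z‖ + ‖w - z‖ := norm_add_le _ _
        _ ≤ _ := by linarith
    have hzn : ‖z‖ ≤ ‖w‖ + 1 / D := by
      calc ‖z‖ = ‖w - (w - z)‖ := by congr 1; ring
        _ ≤ ‖w‖ + ‖w - z‖ := norm_sub_le _ _
        _ ≤ _ := by linarith
    have hwre : t₀ / 2 ≤ w.re := by
      have h1 := Complex.re_le_norm (z - w)
      rw [Complex.sub_re, norm_sub_rev] at h1
      linarith
    have h1 := hK w (by omega) (by linarith) hwre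
    have h2 : ‖1 + w‖ ≤ (1 + 1 / D) * ‖1 + z‖ := by
      calc ‖1 + w‖ = ‖(1 + z) + (w - z)‖ := by congr 1; ring
        _ ≤ ‖1 + z‖ + ‖w - z‖ := norm_add_le _ _
        _ ≤ ‖1 + z‖ + 1 / D := by linarith
        _ ≤ _ := by nlinarith
    have h3 : ‖1 + w‖ ^ (p.choose 2) ≤ Real.exp 1 * ‖1 + z‖ ^ (p.choose 2) := by
      calc ‖1 + w‖ ^ (p.choose 2) ≤ ((1 + 1 / D) * ‖1 + z‖) ^ (p.choose 2) :=
            pow_le_pow_left₀ (norm_nonneg _) h2 _
        _ = (1 + 1 / D) ^ (p.choose 2) * ‖1 + z‖ ^ (p.choose 2) := mul_pow _ _ _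
        _ ≤ _ := by
          refine mul_le_mul_of_nonneg_right ?_ (by positivity)
          calc (1 + 1 / D) ^ (p.choose 2) ≤ Real.exp (1 / D) ^ (p.choose 2) := by
                refine pow_le_pow_left₀ (by positivity) ?_ _
                have := Real.add_one_le_exp (1 / D)
                linarith
            _ = Real.exp ((p.choose 2 : ℕ) * (1 / D)) := by rw [← Real.exp_nat_mul]
            _ ≤ Real.exp 1 := by
              apply Real.exp_le_exp.mpr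
              rw [mul_one_div, div_le_one hDp]
              exact hNle
    have h4 : Real.exp (-(‖w‖ ^ 2 * p / 5)) ≤
        Real.exp 1 * Real.exp (-(‖z‖ ^ 2 * p / 5)) := by
      rw [← Real.exp_add]
      apply Real.exp_le_exp.mpr
      have h5 : ‖z‖ ^ 2 - ‖w‖ ^ 2 ≤ 1 / D := by
        have h6 : (‖z‖ - ‖w‖) * (‖z‖ + ‖w‖) ≤ 1 / D * 1 := by
          have h7 : 0 ≤ ‖z‖ + ‖w‖ := by positivity
          have h8 : ‖z‖ + ‖w‖ ≤ 1 := by linarith
          rcases le_or_gt 0 (‖z‖ - ‖w‖) with h9 | h9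
          · exact mul_le_mul (by linarith) h8 h7 hδ.le
          · have h10 : (‖z‖ - ‖w‖) * (‖z‖ + ‖w‖) ≤ 0 :=
              mul_nonpos_of_nonpos_of_nonneg h9.le h7
            have h11 : 0 ≤ 1 / D * 1 := by positivity
            linarith
        have h7 : (‖z‖ - ‖w‖) * (‖z‖ + ‖w‖) = ‖z‖ ^ 2 - ‖w‖ ^ 2 := by ring
        linarith
      have h6 : (‖z‖ ^ 2 - ‖w‖ ^ 2) * p ≤ 1 := by
        have h7 : 1 / D * (p : ℝ) ≤ 1 := by
          rw [one_div_mul_eq_div, div_le_one hDp, hD]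
          nlinarith
        have h8 : (‖z‖ ^ 2 - ‖w‖ ^ 2) * p ≤ 1 / D * p :=
          mul_le_mul_of_nonneg_right h5 (by positivity)
        linarith
      linarith
    refine h1.trans ?_
    calc K * (p : ℝ) ^ 2 * ‖1 + w‖ ^ (p.choose 2) * Real.exp (-(‖w‖ ^ 2 * p / 5))
        ≤ K * (p : ℝ) ^ 2 * (Real.exp 1 * ‖1 + z‖ ^ (p.choose 2)) *
          (Real.exp 1 * Real.exp (-(‖z‖ ^ 2 * p / 5))) := by
          refine mul_le_mul (mul_le_mul_of_nonneg_left h3 (by positivity)) h4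
            (Real.exp_pos _).le (by positivity)
      _ = B := by rw [hB, hD]; ring
  have h1 := hLC f hf z (1 / D) B i hδ (by linarith) hloc
  rw [← hD, ← hB]
  refine h1.trans (mul_le_mul_of_nonneg_right ?_ hB0)
  rcases Nat.eq_zero_or_pos m with hm | hm
  · obtain rfl : i = 0 := by omega
    rw [hm]; simp
  · have hm1 : (1 : ℝ) ≤ m := by exact_mod_cast hm
    have h2 : (i : ℝ) / (1 / D) ≤ m * D := by
      rw [div_div_eq_mul_div, div_one]
      have h3 : (i : ℝ) ≤ m := by exact_mod_cast hi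
      exact mul_le_mul_of_nonneg_right h3 hDp.le
    have h3 : (1 : ℝ) ≤ m * D := by nlinarith
    exact (pow_le_pow_left₀ (by positivity) h2 _).trans (pow_le_pow_right₀ h3 hi)

/-- bound for a differential operator -/
theorem lop_bound {q : ℕ} {f : PowerSeries ℂ} (hf : f ∈ Good)
    {P : Fin (q + 1) → PowerSeries ℂ} (hP : ∀ i, P i ∈ GI) {z : ℂ} {A B : ℝ} (hA : 0 ≤ A)
    (hPb : ∀ i, ‖ev z (P i)‖ ≤ A) (hz : ‖z‖ ≤ 1 / 4)
    (hfb : ∀ i : Fin (q + 1), ‖ev z ((theta ℂ)^[(i : ℕ)] f)‖ ≤ B) :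
    ‖ev z (Lop P f)‖ ≤ (q + 1) * (A * B) := by
  have hz1 : ‖z‖ < 1 := by linarith
  rw [Lop, ev_sum _ _ (fun i _ => Good.mul_mem (GI.good (hP i)) (theta_iter_mem_Good hf _)) hz1]
  refine (norm_sum_le _ _).trans ((Finset.sum_le_sum fun i _ =>
    (?_ : _ ≤ A * B)).trans (le_of_eq ?_))
  · rw [ev_mul (GI.good (hP i)) (theta_iter_mem_Good hf _) hz1, norm_mul]
    exact mul_le_mul (hPb i) (hfb i) (norm_nonneg _) hA
  · rw [Finset.sum_const, Finset.card_univ, Fintype.card_fin, nsmul_eq_mul]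
    push_cast
    ring

/-- the two parts together -/
theorem final_bound {z u v : ℂ} {p t₀ C : ℝ} {N : ℕ} (hp1 : 1 ≤ p) (ht₀ : 0 < t₀)
    (hz : ‖z‖ ≤ 1 / 4) (hzt : t₀ ≤ z.re) (hC : C ≤ Real.exp (3 * t₀ ^ 2 / 40 * p))
    (hu : ‖u‖ ≤ Real.exp (-(3 * p)))
    (hv : 2 * ‖v‖ ≤ C * (‖1 + z‖ ^ N * Real.exp (-(‖z‖ ^ 2 * p / 5)))) :
    ‖u + v‖ ≤ ‖1 + z‖ ^ N * Real.exp (-(‖z‖ ^ 2 * p / 8)) := by
  have h1z : 1 ≤ ‖1 + z‖ := by
    have h := Complex.re_le_norm (1 + z)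
    rw [Complex.add_re, Complex.one_re] at h
    linarith
  obtain ⟨E, hE⟩ : ∃ E : ℝ, E = ‖1 + z‖ ^ N * Real.exp (-(‖z‖ ^ 2 * p / 8)) := ⟨_, rfl⟩
  have hzz : ‖z‖ ^ 2 ≤ 1 / 16 := by nlinarith [norm_nonneg z]
  have hzt2 : t₀ ^ 2 ≤ ‖z‖ ^ 2 := by
    have h : t₀ ≤ ‖z‖ := hzt.trans (Complex.re_le_norm z)
    exact pow_le_pow_left₀ ht₀.le h 2
  have hA : 2 * Real.exp (-(3 * p)) ≤ E := by
    have h2 : Real.exp (-p) ≤ E := by
      have h3 : Real.exp (-p) ≤ Real.exp (-(‖z‖ ^ 2 * p / 8)) := by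
        apply Real.exp_le_exp.mpr
        nlinarith
      have h4 : (1 : ℝ) ≤ ‖1 + z‖ ^ N := one_le_pow₀ h1z
      rw [hE]
      nlinarith [Real.exp_pos (-(‖z‖ ^ 2 * p / 8))]
    have h3 : 2 * Real.exp (-(3 * p)) ≤ Real.exp (-p) := by
      have h4 : Real.exp (-p) = Real.exp (2 * p) * Real.exp (-(3 * p)) := by
        rw [← Real.exp_add]; congr 1; ring
      have h5 : (2 : ℝ) ≤ Real.exp (2 * p) := by
        have := Real.add_one_le_exp (2 * p)
        linarith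
      rw [h4]
      exact mul_le_mul_of_nonneg_right h5 (Real.exp_pos _).le
    exact h3.trans h2
  have hB2 : 2 * ‖v‖ ≤ E := by
    refine hv.trans ?_
    have h3 : Real.exp (3 * t₀ ^ 2 / 40 * p) * Real.exp (-(‖z‖ ^ 2 * p / 5)) ≤
        Real.exp (-(‖z‖ ^ 2 * p / 8)) := by
      rw [← Real.exp_add]
      apply Real.exp_le_exp.mpr
      have h4 : t₀ ^ 2 * p ≤ ‖z‖ ^ 2 * p := mul_le_mul_of_nonneg_right hzt2 (by linarith)
      linarith
    calc C * (‖1 + z‖ ^ N * Real.exp (-(‖z‖ ^ 2 * p / 5)))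
        ≤ Real.exp (3 * t₀ ^ 2 / 40 * p) *
          (‖1 + z‖ ^ N * Real.exp (-(‖z‖ ^ 2 * p / 5))) :=
          mul_le_mul_of_nonneg_right hC (by positivity)
      _ = ‖1 + z‖ ^ N *
          (Real.exp (3 * t₀ ^ 2 / 40 * p) * Real.exp (-(‖z‖ ^ 2 * p / 5))) := by ring
      _ ≤ E := by rw [hE]; exact mul_le_mul_of_nonneg_left h3 (by positivity)
  rw [← hE]
  have h2 := norm_add_le u v
  linarith

/-- PACKET EG-CORE -/
theorem gCORE (hLC : G_LC) : G_CORE := by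
  intro q b hb hdom Ds hDsG hDsb
  obtain ⟨ε, η, t₀, hε, hη, ht₀, p₀, hdom⟩ := hdom
  obtain ⟨K, hK1, hK⟩ := hDsb (t₀ / 2) (by positivity)
  -- constants
  set CA : ℝ := (q + 1) * (Real.exp 4 * (q.factorial * ((q + 2) ^ (q + 1)) ^ q)
    * (4 * q + 5) ^ (q + 1)) with hCA
  set mA : ℕ := 2 * b * (q + 1) * q + 2 * (q + 1) with hmA
  set CB : ℝ := Real.exp 4 * ((q + 1) * (q.factorial * ((q + 2) ^ (q + 1)) ^ q)
    * (q + 2) ^ (q + 1)) with hCB
  set mB : ℕ := 2 * b * (q + 1) * q + 2 * b * (q + 1) with hmB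
  set CC : ℝ := 2 * ((q + 1) * (Real.exp 4 * (q.factorial * ((q + 2) ^ (q + 1)) ^ q)
    * (((q + 1 : ℕ) : ℝ) ^ (q + 1) * (K * Real.exp 1 * Real.exp 1)))) with hCC
  set mC : ℕ := 2 * b * (q + 1) * q + 2 * (q + 1) + 2 with hmC
  have hηC : 0 < 3 * t₀ ^ 2 / 40 := by positivity
  obtain ⟨pD, hpD⟩ := poly_le_exp CC mC hηC
  obtain ⟨pE, hpE⟩ := exists_nat_gt (2 / t₀)
  obtain ⟨pA, hpA⟩ := poly_le_exp CA mA hη
  obtain ⟨pB, hpB⟩ := poly_le_exp CB mB one_pos
  obtain ⟨pC, hpC⟩ := exists_nat_gt ((q + 1) / ε)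
  refine ⟨p₀ + pA + pB + pC + pD + pE + 2 * q + 5,
    fun p hp F hF hFS T c r ν hr1 hr2 hν hν' herr hld => ?_⟩
  have hp0 : p₀ ≤ p := by omega
  have hpA' : pA ≤ p := by omega
  have hpB' : pB ≤ p := by omega
  have hpC' : pC ≤ p := by omega
  have hpD' : pD ≤ p := by omega
  have hpE' : pE ≤ p := by omega
  have hp5 : 5 ≤ p := by omega
  have hpq : 2 * q < p := by omega
  have hpR : (5 : ℝ) ≤ p := by exact_mod_cast hp5
  have hp1 : (1 : ℝ) ≤ p := by linarith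
  have hp2 : (25 : ℝ) ≤ (p : ℝ) ^ 2 := by nlinarith
  set D : ℝ := (p : ℝ) ^ 2 with hD
  have hD1 : 1 ≤ D := by linarith
  have hDp : 0 < D := by linarith
  have hDb : D ≤ D ^ b := le_self_pow₀ hD1 (by omega)
  have hDb1 : 1 ≤ D ^ b := one_le_pow₀ hD1
  have h1D : 1 / D ≤ 1 / 25 := one_div_le_one_div_of_le (by norm_num) hp2
  have hDbinv : 0 < 1 / D ^ b := by positivity
  have hr34 : 3 / 4 ≤ r := by linarith
  have hrlt : r < 1 := by linarith
  have hxr : 1 / (1 - r) ≤ D ^ b := by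
    rw [div_le_iff₀ (by linarith)]
    have : D ^ b * (1 / D ^ b) ≤ D ^ b * (1 - r) := by
      gcongr; linarith
    have h2 : D ^ b * (1 / D ^ b) = 1 := by field_simp
    linarith
  set Y : ℝ := (q + 2) * D ^ b with hY
  have hY1 : 1 ≤ Y := by
    have : (0 : ℝ) ≤ q := by positivity
    nlinarith
  set H : ℝ := q.factorial * (Y ^ (q + 1)) ^ q with hH
  have hH0 : 0 ≤ H := by positivity
  have hPb : ∀ i, ∀ w : ℂ, ‖w‖ ≤ 2 * r - 1 → ‖ev w (Pm T i)‖ ≤ H := fun i w hw =>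
    Pm_bound T hrlt hld (by positivity) hxr (Y := Y) (by rw [hY]; linarith) hY1 i hw
  -- the common order
  classical
  have hlast : ∃ m, m ≤ ν ∧ coeff m (Pm T (Fin.last q)) ≠ 0 := by
    by_contra hcon
    push Not at hcon
    apply hν'
    have h1 : (X : PowerSeries ℂ) ^ (ν + 1) ∣ Pm T (Fin.last q) := by
      rw [PowerSeries.X_pow_dvd_iff]
      intro m hm
      exact hcon m (by omega)
    rw [Pm_last] at h1
    have h2 : Wr T = (-1) ^ q * ((-1) ^ q * Wr T) := by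
      rw [← mul_assoc, ← mul_pow]; simp
    rw [h2]
    exact Dvd.dvd.mul_left h1 _
  have hex : ∃ m, ∃ i, coeff m (Pm T i) ≠ 0 := by
    obtain ⟨m, -, hm⟩ := hlast
    exact ⟨m, _, hm⟩
  set n0 := Nat.find hex with hn0
  have hn0ν : n0 ≤ ν := by
    obtain ⟨m, hm1, hm2⟩ := hlast
    exact (Nat.find_le (h := hex) ⟨_, hm2⟩ : n0 ≤ m).trans hm1
  have hn0dvd : ∀ i, (X : PowerSeries ℂ) ^ n0 ∣ Pm T i := by
    intro i
    rw [PowerSeries.X_pow_dvd_iff]
    intro m hm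
    by_contra hne
    exact Nat.find_min hex hm ⟨i, hne⟩
  obtain ⟨i0, hi0⟩ : ∃ i, coeff n0 (Pm T i) ≠ 0 := Nat.find_spec hex
  set Pt : Fin (q + 1) → PowerSeries ℂ := fun i => shift n0 (Pm T i) with hPt
  have hPtG : ∀ i, Pt i ∈ GI := fun i => shift_mem_GI (Pm_mem T i)
  have hRpos : 0 < 2 * r - 1 := by linarith
  have hR1 : 2 * r - 1 < 1 := by linarith
  have hR14 : 1 / 4 ≤ 2 * r - 1 := by linarith
  have hRn : Real.exp (-4) ≤ (2 * r - 1) ^ n0 := pow_R_ge hr34 hrlt.le hn0ν hν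
  have hdivR : ∀ B : ℝ, 0 ≤ B → B / (2 * r - 1) ^ n0 ≤ Real.exp 4 * B := by
    intro B hB
    rw [div_le_iff₀ (by positivity)]
    have h1 : Real.exp 4 * Real.exp (-4) = 1 := by rw [← Real.exp_add]; simp
    calc B = B * (Real.exp 4 * Real.exp (-4)) := by rw [h1, mul_one]
      _ ≤ B * (Real.exp 4 * (2 * r - 1) ^ n0) := by gcongr
      _ = _ := by ring
  have hPtb : ∀ i, ∀ z : ℂ, ‖z‖ ≤ 2 * r - 1 → ‖ev z (Pt i)‖ ≤ Real.exp 4 * H := by
    intro i z hz
    have h1 := schwarz_bound (GI.good (Pm_mem T i)) (hn0dvd i) hRpos hR1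
      (fun w hw => hPb i w hw.le) hz
    exact h1.trans (hdivR H hH0)
  -- the functions `Q`
  set lam : ℕ → ℕ := fun k => k * (p - k) with hlam
  have hlamN : ∀ k ≤ p, lam k ≤ p.choose 2 := fun k hk => lam_le (by omega) hk
  set Q : ℕ → PowerSeries ℂ := fun k => ∑ i : Fin (q + 1), Pt i * useq (Su (p.choose 2) (lam k)) i
    with hQ
  have hQG : ∀ k, Q k ∈ GI := fun k =>
    GI.sum_mem fun i _ => GI.mul_mem (hPtG i) (useq_mem _ _)
  have hQsymm : ∀ k ≤ p, Q (p - k) = Q k := by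
    intro k hk
    have : lam (p - k) = lam k := by
      simp only [hlam]
      rw [Nat.sub_sub_self hk, mul_comm]
    simp only [hQ, this]
  have hNle : ((p.choose 2 : ℕ) : ℝ) ≤ D := by
    rw [hD]
    have h1 : p.choose 2 ≤ p ^ 2 := by
      rw [Nat.choose_two_right]
      refine (Nat.div_le_self _ _).trans ?_
      rw [pow_two]
      exact Nat.mul_le_mul_left _ (Nat.sub_le _ _)
    exact_mod_cast h1
  have hQb : ∀ k ≤ p, ∀ z : ℂ, ‖z‖ ≤ 1 / 4 → ‖ev z (Q k)‖ ≤ Real.exp (η * p) := by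
    intro k hk z hz
    have hz1 : ‖z‖ < 1 := by linarith
    have h1 : ‖ev z (Q k)‖ ≤ ∑ _i : Fin (q + 1), (Real.exp 4 * H) * ((4 * q + 5) * D) ^ (q + 1) := by
      rw [hQ]
      simp only
      rw [ev_sum _ _ (fun i _ => Good.mul_mem (GI.good (hPtG i)) (GI.good (useq_mem _ _))) hz1]
      refine (norm_sum_le _ _).trans (Finset.sum_le_sum fun i _ => ?_)
      rw [ev_mul (GI.good (hPtG i)) (GI.good (useq_mem _ _)) hz1, norm_mul]
      have h2 := useq_bound (Su (p.choose 2) (lam k)) (q := q + 1) (Nat.succ_pos q) (R := 1 / 4)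
        (r' := 1 / 2) (g := (p.choose 2 : ℕ)) (by norm_num) (by norm_num) (by positivity)
        (fun z hz => norm_sser_Su (hlamN k hk) hz) (i := (i : ℕ)) i.2.le hz
      have h3 : ((q + 1 : ℕ) : ℝ) / (1 / 2 - 1 / 4) + ((p.choose 2 : ℕ) : ℝ)
          ≤ (4 * q + 5) * D := by
        push_cast
        have h4 : ((q : ℝ) + 1) / (1 / 2 - 1 / 4) = 4 * (q + 1) := by ring
        rw [h4]
        have h5 : (0 : ℝ) ≤ q := by positivity
        nlinarith
      have h4 : (1 : ℝ) ≤ (4 * q + 5) * D := by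
        have h5 : (0 : ℝ) ≤ q := by positivity
        nlinarith
      have h5 : 0 ≤ ((q + 1 : ℕ) : ℝ) / (1 / 2 - 1 / 4) + ((p.choose 2 : ℕ) : ℝ) := by
        apply add_nonneg _ (by positivity)
        apply div_nonneg (by positivity) (by norm_num)
      have h6 : ‖ev z (useq (Su (p.choose 2) (lam k)) i)‖ ≤ ((4 * q + 5) * D) ^ (q + 1) :=
        h2.trans ((pow_le_pow_left₀ h5 h3 _).trans (pow_le_pow_right₀ h4 i.2.le))
      exact mul_le_mul (hPtb i z (hz.trans hR14)) h6 (norm_nonneg _) (by positivity)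
    refine h1.trans ?_
    refine le_trans (le_of_eq ?_) (hpA p hpA')
    rw [Finset.sum_const, Finset.card_univ, Fintype.card_fin, nsmul_eq_mul, hCA, hH, hY, hD, hmA]
    push_cast
    exact arithA _ _ _ _ _ _ _ _
  -- the small sum
  have hLopPt : X ^ n0 * Lop Pt F = Lop (Pm T) (F - Fs T c) := by
    rw [Lop_sub, Lop_Pm_Fs, sub_zero, Lop, Lop, Finset.mul_sum]
    refine Finset.sum_congr rfl fun i _ => ?_
    rw [hPt, ← mul_assoc, ← shift_spec (hn0dvd i)]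
  have hLopG : Lop (Pm T) (F - Fs T c) ∈ Good :=
    Good.sum_mem fun i _ => Good.mul_mem (GI.good (Pm_mem T i))
      (theta_iter_mem_Good (Good.sub_mem hF (Fs_mem T c)) _)
  have hLopsmall : ∀ z : ℂ, ‖z‖ ≤ 1 / 4 → ‖ev z (Lop Pt F)‖ ≤
      Real.exp 4 * ((q + 1) * (H * (Y ^ (q + 1) * Real.exp (-D)))) := by
    intro z hz
    have h1 : Lop Pt F = shift n0 (Lop (Pm T) (F - Fs T c)) := by
      rw [← hLopPt, shift_X_pow_mul]
    rw [h1]
    have h2 : ∀ w : ℂ, ‖w‖ = 2 * r - 1 → ‖ev w (Lop (Pm T) (F - Fs T c))‖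
        ≤ (q + 1) * (H * (Y ^ (q + 1) * Real.exp (-D))) := by
      intro w hw
      have hw1 : ‖w‖ < 1 := by rw [hw]; exact hR1
      rw [Lop, ev_sum _ _ (fun i _ => Good.mul_mem (GI.good (Pm_mem T i))
        (theta_iter_mem_Good (Good.sub_mem hF (Fs_mem T c)) _)) hw1]
      refine (norm_sum_le _ _).trans ?_
      have h3 : ∀ i : Fin (q + 1), ‖ev w (Pm T i * (theta ℂ)^[(i : ℕ)] (F - Fs T c))‖
          ≤ H * (Y ^ (q + 1) * Real.exp (-D)) := by
        intro i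
        rw [ev_mul (GI.good (Pm_mem T i)) (theta_iter_mem_Good (Good.sub_mem hF (Fs_mem T c)) _)
          hw1, norm_mul]
        have h4 := theta_iter_bound (Good.sub_mem hF (Fs_mem T c)) (q := q + 1) (Nat.succ_pos q)
          (R := 2 * r - 1) (r' := r) (B := Real.exp (-D)) (by linarith) hrlt (fun z hz => by
            rw [ev_sub hF (Fs_mem T c) (lt_of_le_of_lt hz hrlt)]
            exact herr z hz) (i := (i : ℕ)) i.2.le hw.le
        have h5 : ((q + 1 : ℕ) : ℝ) / (r - (2 * r - 1)) ≤ Y := by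
          rw [show r - (2 * r - 1) = 1 - r by ring, div_eq_mul_one_div, hY]
          push_cast
          have h6 : ((q : ℝ) + 1) * (1 / (1 - r)) ≤ (q + 1) * D ^ b := by gcongr
          linarith
        have h6 : 0 ≤ ((q + 1 : ℕ) : ℝ) / (r - (2 * r - 1)) := by
          apply div_nonneg (by positivity); linarith
        have h7 : (((q + 1 : ℕ) : ℝ) / (r - (2 * r - 1))) ^ (i : ℕ) ≤ Y ^ (q + 1) :=
          (pow_le_pow_left₀ h6 h5 _).trans (pow_le_pow_right₀ hY1 i.2.le)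
        have h8 : ‖ev w ((theta ℂ)^[(i : ℕ)] (F - Fs T c))‖ ≤ Y ^ (q + 1) * Real.exp (-D) :=
          h4.trans (mul_le_mul_of_nonneg_right h7 (Real.exp_pos _).le)
        exact mul_le_mul (hPb i w hw.le) h8 (norm_nonneg _) hH0
      calc ∑ i : Fin (q + 1), ‖ev w (Pm T i * (theta ℂ)^[(i : ℕ)] (F - Fs T c))‖
          ≤ ∑ _i : Fin (q + 1), H * (Y ^ (q + 1) * Real.exp (-D)) :=
            Finset.sum_le_sum fun i _ => h3 i
        _ = _ := by
            rw [Finset.sum_const, Finset.card_univ, Fintype.card_fin, nsmul_eq_mul]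
            push_cast; ring
    have h3 := schwarz_bound hLopG (n := n0) ⟨_, hLopPt.symm⟩ hRpos hR1 h2 (hz.trans hR14)
    exact h3.trans (hdivR _ (by positivity))
  -- the part of the disconnected graphs
  have hLopD : ∀ z : ℂ, ‖z‖ ≤ 1 / 4 → t₀ ≤ z.re → 2 * ‖ev z (Lop Pt (Ds p))‖ ≤
      CC * (p : ℝ) ^ mC * (‖1 + z‖ ^ (p.choose 2) * Real.exp (-(‖z‖ ^ 2 * p / 5))) := by
    intro z hz hzt
    have h1 := lop_bound (hDsG p) hPtG (by positivity) (fun i => hPtb i z (hz.trans hR14)) hz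
      (fun i : Fin (q + 1) => theta_bound hLC (hDsG p) hK1 ht₀ hp5
        (lt_of_lt_of_le hpE (by exact_mod_cast hpE')) (hK p) hz hzt i.2.le)
    refine (mul_le_mul_of_nonneg_left h1 (by norm_num : (0 : ℝ) ≤ 2)).trans (le_of_eq ?_)
    rw [hCC, hH, hY, hD, hmC]
    exact arithC _ _ _ _ _ _ _ _ _ _ _ _
  have hsmall : ∀ z : ℂ, ‖z‖ ≤ 1 / 4 → t₀ ≤ z.re →
      ‖∑ k ∈ range (p + 1), (p.choose k : ℂ) * (1 + z) ^ (p.choose 2 - k * (p - k))
          * (1 - z) ^ (k * (p - k)) * ev z (Q k)‖ ≤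
        ‖1 + z‖ ^ (p.choose 2) * Real.exp (-(‖z‖ ^ 2 * p / 8)) := by
    intro z hz hzt
    have hz1 : ‖z‖ < 1 := by linarith
    have h1z : 1 ≤ ‖1 + z‖ := by
      have h := Complex.re_le_norm (1 + z)
      rw [Complex.add_re, Complex.one_re] at h
      linarith
    have hFS' : ∑ k ∈ range (p + 1), (p.choose k : ℂ) •
        ((Su (p.choose 2) (k * (p - k)) : GI) : PowerSeries ℂ) = (2 : ℂ) ^ p • F + Ds p := by
      rw [hFS, sub_add_cancel]
    have hG1 : Lop Pt ((2 : ℂ) ^ p • F) ∈ Good := by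
      rw [Lop_smul]
      exact smul_mem_Good _ (Good.sum_mem fun i _ => Good.mul_mem (GI.good (hPtG i))
        (theta_iter_mem_Good hF _))
    have hG2 : Lop Pt (Ds p) ∈ Good := Good.sum_mem fun i _ =>
      Good.mul_mem (GI.good (hPtG i)) (theta_iter_mem_Good (hDsG p) _)
    have h1 : ∑ k ∈ range (p + 1), (p.choose k : ℂ) * (1 + z) ^ (p.choose 2 - k * (p - k))
          * (1 - z) ^ (k * (p - k)) * ev z (Q k) =
        (2 : ℂ) ^ p * ev z (Lop Pt F) + ev z (Lop Pt (Ds p)) := by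
      rw [← ev_smul, ← Lop_smul, ← ev_add hG1 hG2 hz1, ← Lop_add, ← hFS', Lop_sum]
      have hSG : ∀ k, Lop Pt ((p.choose k : ℂ) •
          ((Su (p.choose 2) (k * (p - k)) : GI) : PowerSeries ℂ)) ∈ Good := by
        intro k
        rw [Lop_smul, Lop_unit]
        exact smul_mem_Good _ (Good.mul_mem (GI.good (hQG k)) (GI.good (unit_mem _)))
      rw [ev_sum _ _ (fun k _ => hSG k) hz1]
      refine Finset.sum_congr rfl fun k _ => ?_
      rw [Lop_smul, Lop_unit, ev_smul, ev_mul (GI.good (hQG k)) (GI.good (unit_mem _)) hz1]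
      have h2 := tv_Su (p.choose 2) (k * (p - k)) hz1
      rw [tv] at h2
      rw [h2]
      simp only [hQ, hlam]
      ring
    have hfirst : ‖(2 : ℂ) ^ p * ev z (Lop Pt F)‖ ≤ Real.exp (-(3 * p)) := by
      rw [norm_mul, norm_pow, Complex.norm_ofNat]
      have h2 := hLopsmall z hz
      have h3 := hpB p hpB'
      rw [one_mul] at h3
      have h4 : (2 : ℝ) ^ p ≤ Real.exp p := by
        have : (2 : ℝ) ≤ Real.exp 1 := by
          have := Real.add_one_le_exp (1 : ℝ)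
          linarith
        calc (2 : ℝ) ^ p ≤ (Real.exp 1) ^ p := by gcongr
          _ = Real.exp p := by rw [← Real.exp_nat_mul, mul_one]
      have h5 : Real.exp (-D) ≤ Real.exp (-(5 * p)) := by
        apply Real.exp_le_exp.mpr
        rw [hD]; nlinarith
      have h6 : Real.exp 4 * ((q + 1) * (H * (Y ^ (q + 1) * Real.exp (-D))))
          = CB * (p : ℝ) ^ mB * Real.exp (-D) := by
        rw [hCB, hH, hY, hD, hmB]
        exact arithB _ _ _ _ _ _ _ _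
      rw [h6] at h2
      calc (2 : ℝ) ^ p * ‖ev z (Lop Pt F)‖ ≤ Real.exp p * (Real.exp p * Real.exp (-(5 * p))) := by
            apply mul_le_mul h4 _ (norm_nonneg _) (Real.exp_pos _).le
            refine h2.trans ?_
            apply mul_le_mul h3 h5 (Real.exp_pos _).le (Real.exp_pos _).le
        _ = Real.exp (-(3 * p)) := by
            rw [← Real.exp_add, ← Real.exp_add]; congr 1; ring
    rw [h1]
    exact final_bound hp1 ht₀ hz hzt (hpD p hpD') hfirst (hLopD z hz hzt)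
  have hdiv := hdom p hp0 Q hQG hQsymm hQb hsmall
  have hceil : q + 1 ≤ ⌈ε * p⌉₊ := by
    have h1 : ((q : ℝ) + 1) / ε < p := lt_of_lt_of_le hpC (by exact_mod_cast hpC')
    rw [div_lt_iff₀ hε] at h1
    have h2 : ((q + 1 : ℕ) : ℝ) ≤ ⌈ε * p⌉₊ := by
      push_cast
      calc (q : ℝ) + 1 ≤ p * ε := h1.le
        _ = ε * p := mul_comm _ _
        _ ≤ _ := Nat.le_ceil _
    exact_mod_cast h2
  have hfin := core_alg (N := p.choose 2) Pt (fun j : Fin (q + 1) => lam j) (by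
    intro i j hij
    simp only [hlam] at hij
    have hi := i.2
    have hj := j.2
    have key : ∀ a c : ℕ, a ≤ q → c ≤ q → a < c → a * (p - a) < c * (p - c) := by
      intro a c ha hc hac
      obtain ⟨d, rfl⟩ := Nat.exists_eq_add_of_lt hac
      obtain ⟨e, he⟩ : ∃ e, p = 2 * (a + d + 1) + e + 1 := ⟨p - 2 * (a + d + 1) - 1, by omega⟩
      have e1 : p - a = a + 2 * d + 2 + e + 1 := by omega
      have e2 : p - (a + d + 1) = a + d + 1 + e + 1 := by omega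
      rw [e1, e2]
      nlinarith [Nat.zero_le a, Nat.zero_le d, Nat.zero_le e]
    apply Fin.ext
    rcases Nat.lt_trichotomy (i : ℕ) (j : ℕ) with h | h | h
    · exact absurd hij (key i j (by omega) (by omega) h).ne
    · exact h
    · exact absurd hij (key j i (by omega) (by omega) h).ne')
    (fun j => hlamN j (by omega)) (fun j => by
      rw [Lop_unit]
      exact Dvd.dvd.mul_right ((pow_dvd_pow _ hceil).trans (hdiv j (by omega))) _)
  apply hi0
  have := hfin i0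
  rw [hPt] at this
  simp only at this
  rw [shift, coeff_mk, zero_add] at this
  exact this


end Pool.Agent.Helper23.EG
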